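import Mathlib

/-!
# The Lang-Waldschmidt inequality for almost all bases

For all but at most `(2 B) ^ n A ^ (n - 1)` of the `A ^ n` tuples `a` of integers between `1` and
`A`, the Lang-Waldschmidt inequality holds with `C = 1 / 8` and without loss in the exponent, for
all exponents `b_i` of absolute value at most `B` at once.
-/

set_option autoImplicit false

namespace Pool.Agent.Results.MP_e07dae_nt.AlmostAllBases

open Finset

/-- `P(a, b) = a_1 ^ b_1 ... a_n ^ b_n`. -/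
noncomputable def P {n : ℕ} (a : Fin n → ℕ) (b : Fin n → ℤ) : ℝ := ∏ i, (a i : ℝ) ^ b i

/-- `H(a, b) = |b_1 ... b_n a_1 ... a_n|`. -/
def H {n : ℕ} (a : Fin n → ℕ) (b : Fin n → ℤ) : ℕ := ∏ i, (b i).natAbs * a i

/-- `max |b_j|`. -/
def maxExp {n : ℕ} (b : Fin n → ℤ) : ℕ := univ.sup fun i => (b i).natAbs

theorem key (x y : ℕ) (hx : 1 ≤ x) (hxy : x < y) (e : ℤ) (he : e ≠ 0) (ρ : ℝ)
    (h1 : |(x : ℝ) ^ e * ρ - 1| < 1 / (8 * x)) (h2 : |(y : ℝ) ^ e * ρ - 1| < 1 / (8 * x)) :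
    False := by
  have hx0 : (0 : ℝ) < x := by exact_mod_cast hx
  have hx1 : (1 : ℝ) ≤ x := by exact_mod_cast hx
  have hy0 : (0 : ℝ) < y := by exact_mod_cast (lt_of_lt_of_le hx hxy.le)
  have hyx : (x : ℝ) + 1 ≤ y := by exact_mod_cast hxy
  set δ : ℝ := 1 / (8 * x) with hδ
  have hδ0 : 0 < δ := by positivity
  have hδ1 : δ ≤ 1 / 8 := by
    rw [hδ]
    exact one_div_le_one_div_of_le (by norm_num) (by linarith)
  have hxδ : 8 * δ = 1 / x := by rw [hδ]; field_simp
  obtain ⟨h1a, h1b⟩ := abs_lt.1 h1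
  obtain ⟨h2a, h2b⟩ := abs_lt.1 h2
  have hratio : 1 + 8 * δ ≤ (y : ℝ) / x := by
    rw [hxδ, le_div_iff₀ hx0, add_mul, one_mul, one_div, inv_mul_cancel₀ hx0.ne']
    exact hyx
  -- the power of the ratio
  have hpow : ∀ m : ℕ, 1 ≤ m → 1 + 8 * δ ≤ ((y : ℝ) / x) ^ m := by
    intro m hm
    have h3 : (1 : ℝ) ≤ (y : ℝ) / x := by linarith
    calc 1 + 8 * δ ≤ (y : ℝ) / x := hratio
      _ = ((y : ℝ) / x) ^ 1 := (pow_one _).symm
      _ ≤ ((y : ℝ) / x) ^ m := pow_le_pow_right₀ h3 hm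
  have hfin : ∀ u v r : ℝ, 1 - δ < u → v < 1 + δ → 1 + 8 * δ ≤ r → u * r = v → False := by
    intro u v r hu hv hr huv
    have h3 : (1 - δ) * (1 + 8 * δ) ≤ u * r :=
      mul_le_mul hu.le hr (by positivity) (by linarith)
    nlinarith
  rcases lt_or_gt_of_ne he with hneg | hpos
  · -- negative exponent
    obtain ⟨m, hm⟩ : ∃ m : ℕ, e = -(m : ℤ) := ⟨e.natAbs, by omega⟩
    have hm1 : 1 ≤ m := by omega
    refine hfin ((y : ℝ) ^ e * ρ) ((x : ℝ) ^ e * ρ) (((y : ℝ) / x) ^ m) (by linarith)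
      (by linarith) (hpow m hm1) ?_
    rw [hm, zpow_neg, zpow_neg, zpow_natCast, zpow_natCast, div_pow]
    have h4 : (y : ℝ) ^ m ≠ 0 := by positivity
    have h5 : (x : ℝ) ^ m ≠ 0 := by positivity
    field_simp
  · obtain ⟨m, hm⟩ : ∃ m : ℕ, e = (m : ℤ) := ⟨e.natAbs, by omega⟩
    have hm1 : 1 ≤ m := by omega
    refine hfin ((x : ℝ) ^ e * ρ) ((y : ℝ) ^ e * ρ) (((y : ℝ) / x) ^ m) (by linarith)
      (by linarith) (hpow m hm1) ?_
    rw [hm, zpow_natCast, zpow_natCast, div_pow]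
    have h5 : (x : ℝ) ^ m ≠ 0 := by positivity
    field_simp

/-- The tuples `a` between `1` and `A` for which the Lang-Waldschmidt inequality with `C = 1 / 8`
and `ε` fails for some exponents of absolute value at most `B`. -/
def Exceptional (n A B : ℕ) (ε : ℝ) : Set (Fin n → ℕ) :=
  {a | (∀ i, 1 ≤ a i ∧ a i ≤ A) ∧ ∃ b : Fin n → ℤ, (∀ i, b i ≠ 0 ∧ (b i).natAbs ≤ B) ∧
    |P a b - 1| < 1 / 8 * (maxExp b : ℝ) / (H a b : ℝ) ^ (1 + ε)}

theorem result (n A B : ℕ) (hn : 1 ≤ n) (ε : ℝ) (hε : 0 ≤ ε) :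
    (Exceptional n A B ε).Finite ∧ (Exceptional n A B ε).ncard ≤ (2 * B) ^ n * A ^ (n - 1) := by
  classical
  obtain ⟨m, rfl⟩ : ∃ m, n = m + 1 := ⟨n - 1, by omega⟩
  set Bs : Finset (Fin (m + 1) → ℤ) := Fintype.piFinset fun _ => (Icc (-(B : ℤ)) B).erase 0
    with hBs
  have hBcard : Bs.card = (2 * B) ^ (m + 1) := by
    rw [hBs, Fintype.card_piFinset, prod_const, card_univ, Fintype.card_fin]
    congr 1
    rw [card_erase_of_mem (by simp), Int.card_Icc]
    omega
  set Box : Finset (Fin (m + 1) → ℕ) := Fintype.piFinset fun _ => Icc 1 A with hBox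
  set S : (Fin (m + 1) → ℤ) → Finset (Fin (m + 1) → ℕ) := fun b =>
    Box.filter fun a => |P a b - 1| < 1 / 8 * (maxExp b : ℝ) / (H a b : ℝ) ^ (1 + ε) with hS
  have hsub : Exceptional (m + 1) A B ε ⊆ ↑(Bs.biUnion S) := by
    rintro a ⟨ha, b, hb, hab⟩
    rw [mem_coe, mem_biUnion]
    refine ⟨b, ?_, ?_⟩
    · rw [hBs, Fintype.mem_piFinset]
      intro i
      rw [mem_erase, mem_Icc]
      have := hb i
      refine ⟨this.1, ?_, ?_⟩ <;> omega
    · rw [hS, mem_filter, hBox, Fintype.mem_piFinset]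
      exact ⟨fun i => mem_Icc.2 (ha i), hab⟩
  have hScard : ∀ b ∈ Bs, (S b).card ≤ A ^ m := by
    intro b hb
    rw [hBs, Fintype.mem_piFinset] at hb
    have hb0 : ∀ i, b i ≠ 0 := fun i => (mem_erase.1 (hb i)).1
    obtain ⟨k, -, hk⟩ := exists_mem_eq_sup (univ : Finset (Fin (m + 1)))
      ⟨0, mem_univ _⟩ (fun i => (b i).natAbs)
    have hk1 : 1 ≤ (b k).natAbs := Nat.one_le_iff_ne_zero.2 (Int.natAbs_ne_zero.2 (hb0 k))
    -- the bound for the members
    have hbd : ∀ a ∈ S b, 1 ≤ a k ∧ |P a b - 1| < 1 / (8 * (a k : ℝ)) := by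
      intro a ha
      rw [hS, mem_filter, hBox, Fintype.mem_piFinset] at ha
      obtain ⟨ha1, ha2⟩ := ha
      have ha3 : ∀ i, 1 ≤ a i := fun i => (mem_Icc.1 (ha1 i)).1
      refine ⟨ha3 k, lt_of_lt_of_le ha2 ?_⟩
      have hHpos : 0 < H a b := prod_pos fun i _ =>
        Nat.mul_pos (Int.natAbs_pos.2 (hb0 i)) (ha3 i)
      have hHge : (b k).natAbs * a k ≤ H a b :=
        Nat.le_of_dvd hHpos (dvd_prod_of_mem (fun i => (b i).natAbs * a i) (mem_univ k))
      have hmax : maxExp b = (b k).natAbs := hk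
      have hak : (0 : ℝ) < a k := by exact_mod_cast ha3 k
      have hH1 : (1 : ℝ) ≤ H a b := by exact_mod_cast hHpos
      have h3 : ((b k).natAbs : ℝ) * a k ≤ (H a b : ℝ) ^ (1 + ε) := by
        calc ((b k).natAbs : ℝ) * a k ≤ (H a b : ℝ) := by exact_mod_cast hHge
          _ = (H a b : ℝ) ^ (1 : ℝ) := (Real.rpow_one _).symm
          _ ≤ (H a b : ℝ) ^ (1 + ε) := Real.rpow_le_rpow_of_exponent_le hH1 (by linarith)
      have hbk : (0 : ℝ) < ((b k).natAbs : ℝ) := by exact_mod_cast hk1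
      rw [hmax, div_le_div_iff₀ (by positivity) (by positivity)]
      nlinarith
    have hinj : Set.InjOn (fun a : Fin (m + 1) → ℕ => fun i : Fin m => a (k.succAbove i))
        (S b : Set (Fin (m + 1) → ℕ)) := by
      intro a ha a' ha' haa
      have hrest : ∀ i : Fin m, a (k.succAbove i) = a' (k.succAbove i) := fun i => congrFun haa i
      set ρ : ℝ := ∏ i : Fin m, (a (k.succAbove i) : ℝ) ^ b (k.succAbove i) with hρ
      have hPa : P a b = (a k : ℝ) ^ b k * ρ := Fin.prod_univ_succAbove _ k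
      have hPa' : P a' b = (a' k : ℝ) ^ b k * ρ := by
        rw [P, Fin.prod_univ_succAbove _ k, hρ]
        congr 1
        exact prod_congr rfl fun i _ => by rw [hrest]
      obtain ⟨h1, h2⟩ := hbd a ha
      obtain ⟨h1', h2'⟩ := hbd a' ha'
      rw [hPa] at h2
      rw [hPa'] at h2'
      have hmono : ∀ x y : ℕ, 1 ≤ x → x < y → 1 / (8 * (y : ℝ)) ≤ 1 / (8 * (x : ℝ)) := by
        intro x y hx hxy
        have hx0 : (0 : ℝ) < x := by exact_mod_cast hx
        have hxy' : (x : ℝ) ≤ y := by exact_mod_cast hxy.le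
        exact one_div_le_one_div_of_le (by positivity) (by linarith)
      have hkk : a k = a' k := by
        rcases lt_trichotomy (a k) (a' k) with hlt | heq | hgt
        · exact (key _ _ h1 hlt _ (hb0 k) ρ h2 (lt_of_lt_of_le h2' (hmono _ _ h1 hlt))).elim
        · exact heq
        · exact (key _ _ h1' hgt _ (hb0 k) ρ h2' (lt_of_lt_of_le h2 (hmono _ _ h1' hgt))).elim
      funext i
      rcases Fin.eq_self_or_eq_succAbove k i with hi | ⟨j, hj⟩
      · rw [hi]; exact hkk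
      · rw [hj]; exact hrest j
    have himg : (S b).image (fun a : Fin (m + 1) → ℕ => fun i : Fin m => a (k.succAbove i)) ⊆
        Fintype.piFinset fun _ : Fin m => Icc 1 A := by
      intro c hc
      obtain ⟨a, ha, rfl⟩ := mem_image.1 hc
      rw [hS, mem_filter, hBox, Fintype.mem_piFinset] at ha
      rw [Fintype.mem_piFinset]
      exact fun i => ha.1 _
    calc (S b).card = ((S b).image
          (fun a : Fin (m + 1) → ℕ => fun i : Fin m => a (k.succAbove i))).card :=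
          (card_image_of_injOn hinj).symm
      _ ≤ (Fintype.piFinset fun _ : Fin m => Icc 1 A).card := card_le_card himg
      _ = A ^ m := by simp [Fintype.card_piFinset]
  refine ⟨(finite_toSet _).subset hsub, ?_⟩
  calc (Exceptional (m + 1) A B ε).ncard ≤ (↑(Bs.biUnion S) : Set (Fin (m + 1) → ℕ)).ncard :=
        Set.ncard_le_ncard hsub (finite_toSet _)
    _ = (Bs.biUnion S).card := Set.ncard_coe_finset _
    _ ≤ Bs.card * A ^ m := card_biUnion_le_card_mul _ _ _ hScard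
    _ = (2 * B) ^ (m + 1) * A ^ (m + 1 - 1) := by rw [hBcard, Nat.add_sub_cancel]

end Pool.Agent.Results.MP_e07dae_nt.AlmostAllBases
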